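import Pool.Agent.H38.FT.Br

set_option autoImplicit false

/-!
Step (A) of helper93's route S (note 6695): `h_q = L_q⁻¹ R_x⁻¹ L_q R_x` is an inner mapping which
commutes with every inner mapping of odd order inverted by `D x`.
-/

namespace ALoop

open Equiv

variable {Q : Type*} {G : Subgroup (Perm Q)} {L : Q → Perm Q} {J : Perm Q} {e : Q}

namespace S0

variable {x : Q} {c c' k : Perm Q} {s : Q} {n : ℕ}

theorem hq_comm (d : S0 G L J e x c c' k s n) (h : AL G L J e) (q : Q) :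
    ((L q)⁻¹ * (J * L x * J)⁻¹ * L q * (J * L x * J) ∈ Inn G e) ∧
    ((L q)⁻¹ * (J * L x * J)⁻¹ * L q * (J * L x * J)) * c =
      c * ((L q)⁻¹ * (J * L x * J)⁻¹ * L q * (J * L x * J)) := by
  have hJJ := h.JJ1
  have hcc' : Commute c' c := d.cc
  have hk := d.k_one h
  obtain ⟨-, h2⟩ := d.two h q
  rw [hk, Perm.one_apply] at h2
  have h1 := h.conj_sq d.hJx d.hcG d.hce d.hzc d.hc' d.cc q
  have hRq : ∀ q, (J * L x * J) q = L q x := by
    intro q
    have h4 := h.R_apply q x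
    rw [d.hJx] at h4
    exact h4
  have hRG : J * L x * J ∈ G := h.JG _ (h.memL x)
  -- `R_x⁻¹ c R_x = c'⁻¹`
  have hzR : (J * L x * J)⁻¹ * (c * c) * (J * L x * J) = (c' * c')⁻¹ := by
    have h3 := h.conj_sq d.hJx d.hcG d.hce d.hzc d.hc' d.cc e
    rw [h.Le1, h.D_e] at h3
    have h4 : J * (c' * c) * J = c'⁻¹ * c := by
      have h8 : J * c * J = c := by rw [← d.cJ, mul_assoc, hJJ, mul_one]
      rw [h.Jmul, d.Jc', h8]
    have h5 : (c' * c)⁻¹ * J * (c' * c) * J = (c' * c')⁻¹ := by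
      calc (c' * c)⁻¹ * J * (c' * c) * J = (c' * c)⁻¹ * (J * (c' * c) * J) := by group
        _ = (c' * c)⁻¹ * (c'⁻¹ * c) := by rw [h4]
        _ = (c' * c)⁻¹ * (c * c'⁻¹) := by rw [(hcc'.inv_left).eq]
        _ = (c * c')⁻¹ * (c * c'⁻¹) := by rw [d.cc]
        _ = (c' * c')⁻¹ := by group
    rw [h5] at h3
    calc (J * L x * J)⁻¹ * (c * c) * (J * L x * J)
        = (J * L x * J)⁻¹ * (1 * (c * c) * 1⁻¹) * (J * L x * J) := by group
      _ = (J * L x * J)⁻¹ * ((J * L x * J) * (c' * c')⁻¹ * (J * L x * J)⁻¹) * (J * L x * J) := by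
          rw [h3]
      _ = (c' * c')⁻¹ := by group
  set Rx := J * L x * J with hRx
  -- `L_q b L_q⁻¹ = R_x L_q b'⁻¹ L_q⁻¹ R_x⁻¹`
  have h3 : L q * (c * c) * (L q)⁻¹ = Rx * (L q * (c' * c')⁻¹ * (L q)⁻¹) * Rx⁻¹ := by
    rw [h1, h2]
  set f := (L q)⁻¹ * Rx⁻¹ * L q * Rx with hf
  have hfG : f ∈ G := G.mul_mem (G.mul_mem (G.mul_mem (G.inv_mem (h.memL q)) (G.inv_mem hRG))
    (h.memL q)) hRG
  have hfe : f e = e := by
    show (L q)⁻¹ (Rx⁻¹ (L q (Rx e))) = e
    have h5 : Rx e = x := by rw [hRq, h.Le1, Perm.one_apply]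
    have h6 : Rx⁻¹ (L q x) = q := by rw [← hRq q, inv_apply']
    rw [h5, h6, Perm.inv_eq_iff_eq, h.Le]
  have hfJ : f * J = J * f := h.comJ f hfG hfe
  -- `f` commutes with `b'`
  have hfb : f * (c' * c')⁻¹ = (c' * c')⁻¹ * f := by
    have h7 : L q * (Rx * (c' * c')⁻¹ * Rx⁻¹) * (L q)⁻¹ =
        Rx * (L q * (c' * c')⁻¹ * (L q)⁻¹) * Rx⁻¹ := by
      rw [← h3, ← hzR]; group
    calc f * (c' * c')⁻¹ = (L q)⁻¹ * Rx⁻¹ * (L q * (Rx * (c' * c')⁻¹ * Rx⁻¹) * (L q)⁻¹) * L q * Rx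
          := by rw [hf]; group
      _ = (L q)⁻¹ * Rx⁻¹ * (Rx * (L q * (c' * c')⁻¹ * (L q)⁻¹) * Rx⁻¹) * L q * Rx := by rw [h7]
      _ = (c' * c')⁻¹ * f := by rw [hf]; group
  have hfb2 : f * (c' * c') = (c' * c') * f := by
    have h8 : Commute f (c' * c')⁻¹ := hfb
    have h9 := h8.inv_right
    rw [inv_inv] at h9
    exact h9
  have hfs : f s = s := by
    rw [← h.D_cent hfG s]
    have hDs : D L J s = c' * c' * J := by
      have h1 := h.D_conj d.hc'G e
      rw [h.D_e, ← d.hs] at h1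
      rw [← h1]
      have h2 : J * c'⁻¹ = c' * J := by
        have h3 : J * c'⁻¹ * J = c' := by
          rw [← h.Jmulinv, d.Jc', inv_inv]
        calc J * c'⁻¹ = J * c'⁻¹ * (J * J) := by rw [hJJ, mul_one]
          _ = (J * c'⁻¹ * J) * J := by group
          _ = c' * J := by rw [h3]
      calc c' * J * c'⁻¹ = c' * (J * c'⁻¹) := by group
        _ = c' * c' * J := by rw [h2]; group
    rw [hDs]
    calc f * (c' * c' * J) = (f * (c' * c')) * J := by group
      _ = (c' * c') * f * J := by rw [hfb2]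
      _ = (c' * c') * (f * J) := by group
      _ = (c' * c') * (J * f) := by rw [hfJ]
      _ = c' * c' * J * f := by group
  have hfL : f * (c' * c⁻¹) = (c' * c⁻¹) * f := by
    have h8 := h.comL hfG hfe hfs
    rw [d.Ls_eq h] at h8
    exact h8
  have hfR : f * (c' * c) = (c' * c) * f := by
    have h8 := h.comR hfG hfe hfs
    rw [d.Rs_eq h] at h8
    exact h8
  have hfcc : f * (c * c) = (c * c) * f := by
    have h9 : c * c = (c' * c) * (c' * c⁻¹)⁻¹ := by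
      calc c * c = (c' * (c * c)) * c'⁻¹ := by
            have : c' * (c * c) = (c * c) * c' := (hcc'.mul_right hcc').eq
            rw [this]; group
        _ = (c' * c) * (c' * c⁻¹)⁻¹ := by group
    rw [h9]
    have a1 : Commute f (c' * c) := hfR
    have a2 : Commute f (c' * c⁻¹) := hfL
    exact (a1.mul_right a2.inv_right).eq
  refine ⟨⟨hfG, hfe⟩, ?_⟩
  exact (comm_of_sq d.hn d.hcn hfcc.symm).symm

end S0

namespace AL

/-- step (A): `h_q = L_q⁻¹ R_x⁻¹ L_q R_x` is in `Inn` and commutes with `K_x` -/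
theorem stepA (h : AL G L J e) {x : Q} {c : Perm Q} (o : KX G L J e x c) (q : Q) :
    ((L q)⁻¹ * (J * L x * J)⁻¹ * L q * (J * L x * J) ∈ Inn G e) ∧
    ((L q)⁻¹ * (J * L x * J)⁻¹ * L q * (J * L x * J)) * c =
      c * ((L q)⁻¹ * (J * L x * J)⁻¹ * L q * (J * L x * J)) := by
  obtain ⟨k, n, d⟩ := h.br_S0 o
  exact d.hq_comm h q

end AL

end ALoop
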