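import Pool.Agent.H38.FT.A
import Pool.Agent.H95.FT.K

set_option autoImplicit false

/-!
Step (B) of helper93's route S (note 6695): `lam_w = L_w²` normalises `K_x`, for all involutions
`w`, `x`.
-/

namespace ALoop

open Equiv

variable {Q : Type*} {G : Subgroup (Perm Q)} {L : Q → Perm Q} {J : Perm Q} {e : Q}

namespace AL

theorem lam_mem (h : AL G L J e) {x : Q} (hJx : J x = x) :
    L x * L x ∈ Inn G e ∧ (L x * L x) x = x := by
  have h1 : L x x = e := by
    have := h.LJ x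
    rw [hJx] at this
    exact this
  refine ⟨⟨G.mul_mem (h.memL x) (h.memL x), ?_⟩, ?_⟩
  · show L x (L x e) = e
    rw [h.Le, h1]
  · show L x (L x x) = x
    rw [h1, h.Le]

/-- step (B) -/
theorem stepB (h : AL G L J e) {x : Q} {c : Perm Q} (o : KX G L J e x c) {w : Q}
    (hw : Iv J e w) : KX G L J e x ((L w * L w) * c * (L w * L w)⁻¹) := by
  have hJJ := h.JJ1
  obtain ⟨hA1, hA2⟩ := h.stepA o w
  obtain ⟨hk1, hk2, hk3, -⟩ := h.kk_fix o.Iv.1 o.Iv.2 hw.1 hw.2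
  obtain ⟨hl1, hl2⟩ := h.lam_mem o.Iv.1
  obtain ⟨hlw, -⟩ := h.lam_mem hw.1
  set Rx := J * L x * J with hRx
  set k := (L w * Rx⁻¹) ^ 2 with hk
  set f := (L w)⁻¹ * Rx⁻¹ * L w * Rx with hf
  have hRR : Rx * Rx = L x * L x := by
    have h1 : (L x * L x) * J = J * (L x * L x) := h.comJ _ hl1.1 hl1.2
    calc Rx * Rx = J * L x * (J * J) * L x * J := by rw [hRx]; group
      _ = J * ((L x * L x) * J) := by rw [hJJ]; group
      _ = J * (J * (L x * L x)) := by rw [h1]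
      _ = (J * J) * (L x * L x) := by group
      _ = L x * L x := by rw [hJJ, one_mul]
  have hlam : L w * L w = k * (L x * L x) * f⁻¹ := by
    rw [← hRR, hk, hf, pow_two]; group
  have hfc : f⁻¹ * c * f = c := by
    calc f⁻¹ * c * f = f⁻¹ * (c * f) := by group
      _ = f⁻¹ * (f * c) := by rw [hA2]
      _ = c := by group
  set m := k * (L x * L x) with hm
  have hcm : (L w * L w) * c * (L w * L w)⁻¹ = m * c * m⁻¹ := by
    calc (L w * L w) * c * (L w * L w)⁻¹ = (m * f⁻¹) * c * (m * f⁻¹)⁻¹ := by rw [hlam]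
      _ = m * (f⁻¹ * c * f) * m⁻¹ := by group
      _ = m * c * m⁻¹ := by rw [hfc]
  have hmG : m ∈ G := G.mul_mem hk1 hl1.1
  have hmx : m x = x := by
    rw [hm, Perm.mul_apply, hl2, hk3]
  have hmD : m * D L J x = D L J x * m := (h.D_cent hmG x).2 hmx
  have hDi : (D L J x)⁻¹ = D L J x := inv_eq_of_mul_eq_one_left (h.D_sq x)
  have hmD' : D L J x * m⁻¹ = m⁻¹ * D L J x := by
    calc D L J x * m⁻¹ = m⁻¹ * (m * D L J x) * m⁻¹ := by group
      _ = m⁻¹ * (D L J x * m) * m⁻¹ := by rw [hmD]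
      _ = m⁻¹ * D L J x := by group
  obtain ⟨n, hn, hcn⟩ := o.odd
  refine ⟨o.Iv, ?_, ⟨n, hn, ?_⟩, ?_⟩
  · exact (Inn G e).mul_mem ((Inn G e).mul_mem hlw o.mem) ((Inn G e).inv_mem hlw)
  · rw [conj_pow, hcn, mul_one, mul_inv_cancel]
  · rw [hcm]
    calc D L J x * (m * c * m⁻¹) * D L J x = (D L J x * m) * c * (m⁻¹ * D L J x) := by group
      _ = (m * D L J x) * c * (D L J x * m⁻¹) := by rw [hmD, hmD']
      _ = m * (D L J x * c * D L J x) * m⁻¹ := by group
      _ = m * c⁻¹ * m⁻¹ := by rw [o.inv]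
      _ = (m * c * m⁻¹)⁻¹ := by group

end AL

end ALoop
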