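import Pool.Agent.H38.FT.S0

set_option autoImplicit false

/-!
Steps (1)-(4) of helper98's proof (notes 6641, 6669 of the team).
-/

namespace ALoop

open Equiv

variable {Q : Type*} {G : Subgroup (Perm Q)} {L : Q → Perm Q} {J : Perm Q} {e : Q}

namespace AL

/-- `L_q a² L_q⁻¹ = R_x (w⁻¹ D_q w D_q) R_x⁻¹` -/
theorem conj_sq (h : AL G L J e) {x : Q} (hJx : J x = x) {a a' : Perm Q} (haG : a ∈ G)
    (hae : a e = e) (hza : D L J x * a * D L J x = a⁻¹) (ha' : a' = (L x)⁻¹ * a * L x)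
    (haa : a' * a = a * a') (q : Q) :
    L q * (a * a) * (L q)⁻¹ =
      (J * L x * J) * ((a' * a)⁻¹ * D L J q * (a' * a) * D L J q) * (J * L x * J)⁻¹ := by
  have hJJ := h.JJ1
  have hDD := h.D_sq x
  have hDi : (D L J x)⁻¹ = D L J x := inv_eq_of_mul_eq_one_left hDD
  have aJ : a * J = J * a := h.comJ a haG hae
  have hDJ : D L J x * J = J * D L J x := h.Dx_J hJx
  have hDa : D L J x * a⁻¹ * D L J x = a := by
    have h3 : (D L J x * a * D L J x)⁻¹ = D L J x * a⁻¹ * D L J x := by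
      rw [mul_inv_rev, mul_inv_rev, hDi]; group
    rw [← h3, hza, inv_inv]
  have haa2 : a * a = D L J (a x) * D L J x := by
    rw [← h.D_conj haG x]
    calc a * a = a * (D L J x * a⁻¹ * D L J x) := by rw [hDa]
      _ = a * D L J x * a⁻¹ * D L J x := by group
  have hJax : J (a x) = a x := by
    have h1 : a (J x) = J (a x) := by
      show (a * J) x = (J * a) x
      rw [aJ]
    rw [← h1, hJx]
  have hLa : L (a x) = a * L x * a⁻¹ := (h.equi a haG hae x).symm
  set Rx := J * L x * J with hRx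
  have hRG : Rx ∈ G := h.JG _ (h.memL x)
  have hRq : ∀ q, Rx q = L q x := by
    intro q
    have h4 := h.R_apply q x
    rw [hJx] at h4
    exact h4
  have hRaq : ∀ q, (a * Rx * a⁻¹) q = L q (a x) := by
    intro q
    have h4 := h.R_apply q (a x)
    rw [hJax, hLa] at h4
    rw [← h4]
    have h5 : a * Rx * a⁻¹ = J * (a * L x * a⁻¹) * J := by
      have aiJ : a⁻¹ * J = J * a⁻¹ := by
        calc a⁻¹ * J = a⁻¹ * (J * a) * a⁻¹ := by group
          _ = a⁻¹ * (a * J) * a⁻¹ := by rw [aJ]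
          _ = J * a⁻¹ := by group
      rw [hRx]
      calc a * (J * L x * J) * a⁻¹ = (a * J) * L x * (J * a⁻¹) := by group
        _ = (J * a) * L x * (a⁻¹ * J) := by rw [aJ, aiJ]
        _ = J * (a * L x * a⁻¹) * J := by group
    rw [h5]
  -- `R_x⁻¹ a R_x = a'⁻¹`
  have hRJ : Rx = J * D L J x * L x := by
    have h1 : J * D L J x * L x = D L J x * J * L x := by rw [hDJ]
    rw [h1]
    have h2 : (D L J x * J) * Rx = L x := by
      rw [hRx]; unfold D
      calc L x * J * (L x)⁻¹ * J * (J * L x * J) = L x * J * (L x)⁻¹ * (J * J) * L x * J := by group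
        _ = L x * J * (L x)⁻¹ * 1 * L x * J := by rw [hJJ]
        _ = L x * (J * J) := by group
        _ = L x := by rw [hJJ, mul_one]
    have hzz : (D L J x * J) * (D L J x * J) = 1 := by
      calc D L J x * J * (D L J x * J) = D L J x * (J * D L J x) * J := by group
        _ = D L J x * (D L J x * J) * J := by rw [hDJ]
        _ = (D L J x * D L J x) * (J * J) := by group
        _ = 1 := by rw [hDD, hJJ, one_mul]
    calc Rx = ((D L J x * J) * (D L J x * J)) * Rx := by rw [hzz, one_mul]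
      _ = (D L J x * J) * ((D L J x * J) * Rx) := by group
      _ = D L J x * J * L x := by rw [h2]
  have hRa : Rx⁻¹ * a * Rx = a'⁻¹ := by
    rw [hRJ, ha']
    have h1 : J * a * J = a := by rw [← aJ, mul_assoc, hJJ, mul_one]
    have hJi : J⁻¹ = J := h.Jinv
    calc (J * D L J x * L x)⁻¹ * a * (J * D L J x * L x)
        = (L x)⁻¹ * ((D L J x)⁻¹ * (J⁻¹ * a * J) * D L J x) * L x := by group
      _ = (L x)⁻¹ * (D L J x * (J * a * J) * D L J x) * L x := by rw [hDi, hJi]
      _ = (L x)⁻¹ * a⁻¹ * L x := by rw [h1, hza]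
      _ = ((L x)⁻¹ * a * L x)⁻¹ := by group
  have hRa2 : a * Rx * a⁻¹ = Rx * (a' * a)⁻¹ := by
    calc a * Rx * a⁻¹ = Rx * (Rx⁻¹ * a * Rx) * a⁻¹ := by group
      _ = Rx * a'⁻¹ * a⁻¹ := by rw [hRa]
      _ = Rx * (a * a')⁻¹ := by group
      _ = Rx * (a' * a)⁻¹ := by rw [haa]
  have hRaG : a * Rx * a⁻¹ ∈ G := G.mul_mem (G.mul_mem haG hRG) (G.inv_mem haG)
  have e1 : L q * D L J (a x) * (L q)⁻¹ =
      (Rx * (a' * a)⁻¹) * D L J q * (Rx * (a' * a)⁻¹)⁻¹ := by
    rw [h.D_conj (h.memL q), ← hRaq q, ← hRa2, h.D_conj hRaG]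
  have e2 : L q * D L J x * (L q)⁻¹ = Rx * D L J q * Rx⁻¹ := by
    rw [h.D_conj (h.memL q), ← hRq q, h.D_conj hRG]
  calc L q * (a * a) * (L q)⁻¹ = (L q * D L J (a x) * (L q)⁻¹) * (L q * D L J x * (L q)⁻¹) := by
        rw [haa2]; group
    _ = Rx * ((a' * a)⁻¹ * D L J q * (a' * a) * D L J q) * Rx⁻¹ := by
        rw [e1, e2]; group

end AL

namespace S0

variable {x : Q} {c c' k : Perm Q} {s : Q} {n : ℕ}

/-- step (1) -/
theorem w_comm (d : S0 G L J e x c c' k s n) (h : AL G L J e) (q : Q) :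
    (c' * c) * (D L J q * (c' * c) * D L J q) = (D L J q * (c' * c) * D L J q) * (c' * c) := by
  apply Pool.Agent.H38.FT.comm_of_hom (h.D_sq q)
  have h1 := h.conj_sq d.hJx d.hcG d.hce d.hzc d.hc' d.cc q
  have hza : D L J x * (c * c) * D L J x = (c * c)⁻¹ := by
    calc D L J x * (c * c) * D L J x
        = (D L J x * c * D L J x) * (D L J x)⁻¹ * (D L J x)⁻¹ * (D L J x * c * D L J x) := by group
      _ = (D L J x * c * D L J x) * (D L J x * D L J x)⁻¹ * (D L J x * c * D L J x) := by group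
      _ = (c * c)⁻¹ := by rw [d.hzc, h.D_sq x]; group
  have hcc' : Commute c' c := d.cc
  have h2 := h.conj_sq d.hJx (a := c * c) (a' := c' * c') (G.mul_mem d.hcG d.hcG)
    (by rw [Perm.mul_apply, d.hce, d.hce]) hza (by rw [d.hc']; group)
    ((hcc'.mul_right hcc').mul_left (hcc'.mul_right hcc')) q
  have e1 : c' * c' * (c * c) = (c' * c) * (c' * c) := by
    calc c' * c' * (c * c) = c' * (c' * c) * c := by group
      _ = c' * (c * c') * c := by rw [d.cc]
      _ = (c' * c) * (c' * c) := by group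
  rw [e1] at h2
  set w := c' * c with hw
  set Rx := J * L x * J with hRx
  set Dq := D L J q with hDq
  have h3 : Rx * ((w * w)⁻¹ * Dq * (w * w) * Dq) * Rx⁻¹ =
      Rx * ((w⁻¹ * Dq * w * Dq) * (w⁻¹ * Dq * w * Dq)) * Rx⁻¹ := by
    rw [← h2]
    calc L q * (c * c * (c * c)) * (L q)⁻¹
        = (L q * (c * c) * (L q)⁻¹) * (L q * (c * c) * (L q)⁻¹) := by group
      _ = Rx * ((w⁻¹ * Dq * w * Dq) * (w⁻¹ * Dq * w * Dq)) * Rx⁻¹ := by rw [h1]; group
  have h4 := mul_left_cancel (mul_right_cancel h3)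
  rw [← h4]; group

/-- step (2) -/
theorem two (d : S0 G L J e x c c' k s n) (h : AL G L J e) (q : Q) :
    L q * (c' * c') * (L q)⁻¹ = (c' * c) * D L J (k q) * (c' * c)⁻¹ * D L J q ∧
    L q * (c' * c')⁻¹ * (L q)⁻¹ = (c' * c)⁻¹ * D L J (k q) * (c' * c) * D L J q := by
  have hJJ := h.JJ1
  have hJi : J⁻¹ = J := h.Jinv
  have hDs : D L J s = c' * c' * J := by
    have h1 := h.D_conj d.hc'G e
    rw [h.D_e, ← d.hs] at h1
    rw [← h1]
    have h2 : J * c'⁻¹ = c' * J := by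
      have h3 : J * c'⁻¹ * J = c' := by
        rw [← h.Jmulinv, d.Jc', inv_inv]
      calc J * c'⁻¹ = J * c'⁻¹ * (J * J) := by rw [hJJ, mul_one]
        _ = (J * c'⁻¹ * J) * J := by group
        _ = c' * J := by rw [h3]
    calc c' * J * c'⁻¹ = c' * (J * c'⁻¹) := by group
      _ = c' * c' * J := by rw [h2]; group
  have hDJs : D L J (J s) = (c' * c')⁻¹ * J := by
    rw [← h.D_J s, hDs]
    have h3 : J * (c' * c') * J = (c' * c')⁻¹ := by
      rw [h.Jmul, d.Jc']; group
    calc J * (c' * c' * J) * J = J * (c' * c') * (J * J) := by group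
      _ = J * (c' * c') * J * J := by group
      _ = (c' * c')⁻¹ * J := by rw [h3]
  have hLqJ : L q * J * (L q)⁻¹ = D L J q := rfl
  have hcw : k * (c' * c) = (c' * c) * k := by
    calc k * (c' * c) = (k * c') * c := by group
      _ = (c' * k) * c := by rw [d.kc']
      _ = c' * (k * c) := by group
      _ = c' * (c * k) := by rw [d.kc]
      _ = (c' * c) * k := by group
  have hDk : k * D L J q * k⁻¹ = D L J (k q) := h.D_conj d.kG q
  constructor
  · have h1 : (J * L (J s) * J) q = L q s := h.R_apply q s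
    have hRG : (J * L (J s) * J) ∈ G := h.memR s
    have h2 : L q * D L J s * (L q)⁻¹ = (c' * c * k) * D L J q * (c' * c * k)⁻¹ := by
      rw [h.D_conj (h.memL q), ← h1, ← h.D_conj hRG, d.Rs]
    calc L q * (c' * c') * (L q)⁻¹
        = (L q * (c' * c' * J) * (L q)⁻¹) * (L q * J⁻¹ * (L q)⁻¹) := by group
      _ = (L q * D L J s * (L q)⁻¹) * D L J q := by rw [hDs, hJi, hLqJ]
      _ = (c' * c) * (k * D L J q * k⁻¹) * (c' * c)⁻¹ * D L J q := by rw [h2]; group
      _ = (c' * c) * D L J (k q) * (c' * c)⁻¹ * D L J q := by rw [hDk]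
  · have h1 : (J * L (J (J s)) * J) q = L q (J s) := h.R_apply q (J s)
    rw [h.JJ] at h1
    have hRG : (J * L s * J) ∈ G := h.JG _ (h.memL s)
    have e1 : c'⁻¹ * c⁻¹ * k = (c' * c)⁻¹ * k := by rw [d.cc]; group
    have h2 : L q * D L J (J s) * (L q)⁻¹ =
        ((c' * c)⁻¹ * k) * D L J q * ((c' * c)⁻¹ * k)⁻¹ := by
      rw [h.D_conj (h.memL q), ← h1, ← h.D_conj hRG, d.LJs, e1]
    calc L q * (c' * c')⁻¹ * (L q)⁻¹
        = (L q * ((c' * c')⁻¹ * J) * (L q)⁻¹) * (L q * J⁻¹ * (L q)⁻¹) := by group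
      _ = (L q * D L J (J s) * (L q)⁻¹) * D L J q := by rw [hDJs, hJi, hLqJ]
      _ = (c' * c)⁻¹ * (k * D L J q * k⁻¹) * (c' * c) * D L J q := by rw [h2]; group
      _ = (c' * c)⁻¹ * D L J (k q) * (c' * c) * D L J q := by rw [hDk]

theorem w_pow (d : S0 G L J e x c c' k s n) : (c' * c) ^ n = 1 := by
  have hcc' : Commute c' c := d.cc
  rw [hcc'.mul_pow, d.hcn, d.hcn', one_mul]

/-- step (3) -/
theorem k_one (d : S0 G L J e x c c' k s n) (h : AL G L J e) : k = 1 := by
  apply Perm.ext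
  intro q
  rw [Perm.one_apply]
  apply h.D_inj
  obtain ⟨h1, h2⟩ := d.two h q
  have hDi : (D L J q)⁻¹ = D L J q := inv_eq_of_mul_eq_one_left (h.D_sq q)
  have hDi' : (D L J (k q))⁻¹ = D L J (k q) := inv_eq_of_mul_eq_one_left (h.D_sq (k q))
  refine Pool.Agent.H38.FT.eq_of_odd d.hn d.w_pow (h.D_sq q) (h.D_sq (k q)) (d.w_comm h q)
    (d.w_comm h (k q)) ?_ ?_
  · rw [← h2]
    have h3 : L q * (c' * c')⁻¹ * (L q)⁻¹ = (L q * (c' * c') * (L q)⁻¹)⁻¹ := by group
    rw [h3, h1]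
    calc D L J q * (c' * c) * D L J (k q) * (c' * c)⁻¹
        = (D L J q)⁻¹ * (c' * c) * (D L J (k q))⁻¹ * (c' * c)⁻¹ := by rw [hDi, hDi']
      _ = ((c' * c) * D L J (k q) * (c' * c)⁻¹ * D L J q)⁻¹ := by group
  · rw [← h1]
    have h3 : Commute c' c' := Commute.refl c'
    rw [conj_pow, h3.mul_pow, d.hcn', one_mul, mul_one, mul_inv_cancel]

/-- step (4), first part: `L_s = c' c⁻¹`, `R_s = c' c` -/
theorem Ls_eq (d : S0 G L J e x c c' k s n) (h : AL G L J e) : L s = c' * c⁻¹ := by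
  have := d.Ls
  rw [d.k_one h, mul_one] at this
  exact this

theorem Rs_eq (d : S0 G L J e x c c' k s n) (h : AL G L J e) : J * L (J s) * J = c' * c := by
  have := d.Rs
  rw [d.k_one h, mul_one] at this
  exact this

/-- step (4): `L_q⁻¹ R_s L_q = d_q R_s` with `d_q` in `H_s` of odd order -/
theorem four (d : S0 G L J e x c c' k s n) (h : AL G L J e) (q : Q) :
    ∃ f ∈ G, f e = e ∧ f s = s ∧ f ^ n = 1 ∧
      (L q)⁻¹ * (c' * c) * L q = f * (c' * c) ∧ f * (c' * c) = (c' * c) * f := by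
  have hJJ := h.JJ1
  have hJi : J⁻¹ = J := h.Jinv
  have hk := d.k_one h
  obtain ⟨h1, -⟩ := d.two h q
  rw [hk, Perm.one_apply] at h1
  have hw := d.w_comm h q
  set w := c' * c with hwdef
  set wq := (L q)⁻¹ * w * L q with hwq
  -- `c'² = w_q J w_q⁻¹ J`
  have h2 : c' * c' = wq * J * wq⁻¹ * J := by
    calc c' * c' = (L q)⁻¹ * (L q * (c' * c') * (L q)⁻¹) * L q := by group
      _ = (L q)⁻¹ * (w * D L J q * w⁻¹ * D L J q) * L q := by rw [h1]
      _ = wq * J * wq⁻¹ * J := by rw [hwq]; unfold D; group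
  have h3 : J * wq * J = (c' * c')⁻¹ * wq := by
    have h4 : (c' * c')⁻¹ = J * wq * J * wq⁻¹ := by
      rw [h2]
      calc (wq * J * wq⁻¹ * J)⁻¹ = J⁻¹ * wq * J⁻¹ * wq⁻¹ := by group
        _ = J * wq * J * wq⁻¹ := by rw [hJi]
    rw [h4]; group
  have h5 : wq * (J * wq * J) = (J * wq * J) * wq := by
    have h6 : J * wq * J = (L q)⁻¹ * (D L J q * w * D L J q) * L q := by
      rw [hwq]; unfold D; group
    rw [h6, hwq]
    calc (L q)⁻¹ * w * L q * ((L q)⁻¹ * (D L J q * w * D L J q) * L q)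
        = (L q)⁻¹ * (w * (D L J q * w * D L J q)) * L q := by group
      _ = (L q)⁻¹ * ((D L J q * w * D L J q) * w) * L q := by rw [hw]
      _ = (L q)⁻¹ * (D L J q * w * D L J q) * L q * ((L q)⁻¹ * w * L q) := by group
  have h7 : wq * (c' * c') = (c' * c') * wq := by
    rw [h3] at h5
    have h8 : wq * (c' * c')⁻¹ = (c' * c')⁻¹ * wq := by
      have h9 : wq * (c' * c')⁻¹ * wq = (c' * c')⁻¹ * wq * wq := by
        calc wq * (c' * c')⁻¹ * wq = wq * ((c' * c')⁻¹ * wq) := by group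
          _ = (c' * c')⁻¹ * wq * wq := h5
      exact mul_right_cancel h9
    calc wq * (c' * c') = (c' * c') * ((c' * c')⁻¹ * wq) * (c' * c') := by group
      _ = (c' * c') * (wq * (c' * c')⁻¹) * (c' * c') := by rw [h8]
      _ = (c' * c') * wq := by group
  have hcc' : Commute c' c := d.cc
  have hwc : w * (c' * c') = (c' * c') * w := by
    have : Commute w (c' * c') := by
      rw [hwdef]
      exact ((Commute.refl c').mul_right (Commute.refl c')).mul_left
        (hcc'.symm.mul_right hcc'.symm)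
    exact this.eq
  have hJw : J * w * J = (c' * c')⁻¹ * w := by
    have h8 : J * c * J = c := by rw [← d.cJ, mul_assoc, hJJ, mul_one]
    rw [hwdef, h.Jmul, d.Jc', h8]; group
  set f := wq * w⁻¹ with hf
  have hfJ : f * J = J * f := by
    have h8 : J * f * J = f := by
      rw [hf, h.Jmul, h3, ← h.Jmulinv, hJw]
      have gen : ∀ P W W' : Perm Q, P⁻¹ * W' * (P⁻¹ * W)⁻¹ = P⁻¹ * W' * W⁻¹ * P := by
        intro P W W'; group
      calc (c' * c')⁻¹ * wq * ((c' * c')⁻¹ * w)⁻¹ = (c' * c')⁻¹ * wq * w⁻¹ * (c' * c') :=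
            gen _ _ _
        _ = (c' * c')⁻¹ * wq * (w⁻¹ * (c' * c')) := by group
        _ = (c' * c')⁻¹ * wq * ((c' * c') * w⁻¹) := by
            have : w⁻¹ * (c' * c') = (c' * c') * w⁻¹ := by
              calc w⁻¹ * (c' * c') = w⁻¹ * ((c' * c') * w) * w⁻¹ := by group
                _ = w⁻¹ * (w * (c' * c')) * w⁻¹ := by rw [hwc]
                _ = (c' * c') * w⁻¹ := by group
            rw [this]
        _ = (c' * c')⁻¹ * (wq * (c' * c')) * w⁻¹ := by group
        _ = (c' * c')⁻¹ * ((c' * c') * wq) * w⁻¹ := by rw [h7]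
        _ = wq * w⁻¹ := by group
    calc f * J = (J * f * J) * J := by rw [h8]
      _ = J * f * (J * J) := by group
      _ = J * f := by rw [hJJ, mul_one]
  have hwG : w ∈ G := G.mul_mem d.hc'G d.hcG
  have hwqG : wq ∈ G := G.mul_mem (G.mul_mem (G.inv_mem (h.memL q)) hwG) (h.memL q)
  have hfG : f ∈ G := G.mul_mem hwqG (G.inv_mem hwG)
  have hfe : f e = e := h.centJ hfG hfJ
  have hfc : f * (c' * c') = (c' * c') * f := by
    rw [hf]
    calc wq * w⁻¹ * (c' * c') = wq * (w⁻¹ * ((c' * c') * w)) * w⁻¹ := by group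
      _ = wq * (w⁻¹ * (w * (c' * c'))) * w⁻¹ := by rw [hwc]
      _ = (wq * (c' * c')) * w⁻¹ := by group
      _ = ((c' * c') * wq) * w⁻¹ := by rw [h7]
      _ = (c' * c') * (wq * w⁻¹) := by group
  have hfs : f s = s := by
    rw [← h.D_cent hfG s]
    have hDs : D L J s = c' * c' * J := by
      have h1 := h.D_conj d.hc'G e
      rw [h.D_e, ← d.hs] at h1
      rw [← h1]
      have h2 : J * c'⁻¹ = c' * J := by
        have h3 : J * c'⁻¹ * J = c' := by
          rw [← h.Jmulinv, d.Jc', inv_inv]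
        calc J * c'⁻¹ = J * c'⁻¹ * (J * J) := by rw [hJJ, mul_one]
          _ = (J * c'⁻¹ * J) * J := by group
          _ = c' * J := by rw [h3]
      calc c' * J * c'⁻¹ = c' * (J * c'⁻¹) := by group
        _ = c' * c' * J := by rw [h2]; group
    rw [hDs]
    calc f * (c' * c' * J) = (f * (c' * c')) * J := by group
      _ = (c' * c') * f * J := by rw [hfc]
      _ = (c' * c') * (f * J) := by group
      _ = (c' * c') * (J * f) := by rw [hfJ]
      _ = c' * c' * J * f := by group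
  have hfR : f * w = w * f := by
    have h8 := h.comR hfG hfe hfs
    rw [d.Rs_eq h] at h8
    exact h8
  have hwqf : wq = f * w := by rw [hf]; group
  have hfn : f ^ n = 1 := by
    have h8 : wq ^ n = 1 := by
      have h9 : wq = (L q)⁻¹ * w * ((L q)⁻¹)⁻¹ := by rw [inv_inv]
      rw [h9, conj_pow, hwdef, d.w_pow]; group
    have h10 : Commute f w := hfR
    rw [hwqf, h10.mul_pow, hwdef, d.w_pow, mul_one] at h8
    exact h8
  exact ⟨f, hfG, hfe, hfs, hfn, hwqf, hfR⟩

end S0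

end ALoop
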