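import Pool.Agent.H98.FT.Def
import Pool.Agent.H38.FT.S1

set_option autoImplicit false

/-!
Bridge from `S0` to the statements `one_w`, `k_one`, `four_d` of helper98's list.
-/

namespace ALoop

open Equiv

variable {Q : Type*} {G : Subgroup (Perm Q)} {L : Q → Perm Q} {J : Perm Q} {e : Q}

namespace AL

theorem br_sp (h : AL G L J e) (x : Q) (c : Perm Q) : ((L x)⁻¹ * c * L x) e = sp L x c := by
  show (L x)⁻¹ (c (L x e)) = (L x)⁻¹ (c x)
  rw [h.Le]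

theorem br_S0 (h : AL G L J e) {x : Q} {c : Perm Q} (o : KX G L J e x c) :
    ∃ k n, S0 G L J e x c (pr L x c) k (sp L x c) n := by
  obtain ⟨n, hn, hcn⟩ := o.odd
  obtain ⟨k, hk⟩ := h.exists_S0 o.Iv.1 o.mem hn hcn o.inv
  rw [h.br_sp] at hk
  exact ⟨k, n, hk⟩

theorem br_one_w (h : AL G L J e) {x : Q} {c : Perm Q} (o : KX G L J e x c) (q : Q) :
    (pr L x c * c) * (D L J q * (pr L x c * c) * D L J q) =
      (D L J q * (pr L x c * c) * D L J q) * (pr L x c * c) := by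
  obtain ⟨k, n, d⟩ := h.br_S0 o
  exact d.w_comm h q

theorem br_k_one (h : AL G L J e) {x : Q} {c : Perm Q} (o : KX G L J e x c) :
    L (sp L x c) = pr L x c * c⁻¹ ∧ rt L J (sp L x c) = pr L x c * c := by
  obtain ⟨k, n, d⟩ := h.br_S0 o
  exact ⟨d.Ls_eq h, d.Rs_eq h⟩

theorem br_four_d (h : AL G L J e) {x : Q} {c : Perm Q} (o : KX G L J e x c) (q : Q) :
    (L q)⁻¹ * (pr L x c * c) * L q * (pr L x c * c)⁻¹ ∈ Inn G e ∧
    ((L q)⁻¹ * (pr L x c * c) * L q * (pr L x c * c)⁻¹) (sp L x c) = sp L x c ∧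
    ((L q)⁻¹ * (pr L x c * c) * L q * (pr L x c * c)⁻¹) * (pr L x c * c) =
      (pr L x c * c) * ((L q)⁻¹ * (pr L x c * c) * L q * (pr L x c * c)⁻¹) ∧
    ∃ n : ℕ, Odd n ∧ ((L q)⁻¹ * (pr L x c * c) * L q * (pr L x c * c)⁻¹) ^ n = 1 := by
  obtain ⟨k, n, d⟩ := h.br_S0 o
  obtain ⟨f, hfG, hfe, hfs, hfn, h1, h2⟩ := d.four h q
  have h3 : (L q)⁻¹ * (pr L x c * c) * L q * (pr L x c * c)⁻¹ = f := by rw [h1]; group
  rw [h3]
  exact ⟨⟨hfG, hfe⟩, hfs, h2, n, d.hn, hfn⟩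

end AL

end ALoop
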