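import Mathlib

set_option autoImplicit false

/-!
Pure group theory for the steps (1)-(3): `w` of odd order, `D`, `D'` involutions.
-/

namespace Pool.Agent.H38.FT

variable {M : Type*} [Group M]

theorem inv_comm_iff {a b : M} (h : a⁻¹ * b = b * a⁻¹) : a * b = b * a := by
  have := (Commute.inv_left_iff (a := a) (b := b)).1 h
  exact this

/-- step (1): if `w^{-j} D w^j D` is multiplicative for `j = 1`, then `w` commutes with `D w D` -/
theorem comm_of_hom {w D : M} (hD : D * D = 1)
    (h : w⁻¹ * w⁻¹ * D * w * w * D = (w⁻¹ * D * w * D) * (w⁻¹ * D * w * D)) :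
    w * (D * w * D) = (D * w * D) * w := by
  have hDi : D⁻¹ = D := inv_eq_of_mul_eq_one_left hD
  apply inv_comm_iff
  -- cancel `w⁻¹` on the left and `w D` on the right
  have h2 : w⁻¹ * D * w = D * w * D * w⁻¹ * D := by
    have h3 : w⁻¹ * (w⁻¹ * D * w) * (w * D) = w⁻¹ * (D * w * D * w⁻¹ * D) * (w * D) := by
      calc w⁻¹ * (w⁻¹ * D * w) * (w * D) = w⁻¹ * w⁻¹ * D * w * w * D := by group
        _ = (w⁻¹ * D * w * D) * (w⁻¹ * D * w * D) := h
        _ = w⁻¹ * (D * w * D * w⁻¹ * D) * (w * D) := by group
    exact mul_left_cancel (mul_right_cancel h3)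
  calc w⁻¹ * (D * w * D) = (w⁻¹ * D * w) * D := by group
    _ = (D * w * D * w⁻¹ * D) * D := by rw [h2]
    _ = (D * w * D) * w⁻¹ * (D * D) := by group
    _ = (D * w * D) * w⁻¹ := by rw [hD, mul_one]

theorem pow_comm_odd {a c : M} {n : ℕ} (hn : Odd n) (ha : a ^ n = 1)
    (h : a * a * c = c * (a * a)) : a * c = c * a := by
  obtain ⟨k, rfl⟩ := hn
  have h1 : Commute (a ^ 2) c := by
    show a ^ 2 * c = c * a ^ 2
    rw [pow_two]; exact h
  have h2 : a = ((a ^ 2) ^ k)⁻¹ := by
    rw [pow_succ, pow_mul] at ha
    exact eq_inv_of_mul_eq_one_right ha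
  have h3 : Commute a c := by
    rw [h2]
    exact (h1.pow_left k).inv_left
  exact h3.eq

/-- steps (2), (3): `D' = D` -/
theorem eq_of_odd {w D D' : M} {n : ℕ} (hn : Odd n) (hw : w ^ n = 1) (hD : D * D = 1)
    (hD' : D' * D' = 1) (h1 : w * (D * w * D) = (D * w * D) * w)
    (h2 : w * (D' * w * D') = (D' * w * D') * w)
    (h3 : D * w * D' * w⁻¹ = w⁻¹ * D' * w * D)
    (h4 : (w * D' * w⁻¹ * D) ^ n = 1) : D' = D := by
  have hDi : D⁻¹ = D := inv_eq_of_mul_eq_one_left hD
  have hDi' : D'⁻¹ = D' := inv_eq_of_mul_eq_one_left hD'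
  set wD := D * w * D with hwD
  -- `D'` commutes with `w D w`
  have c1 : Commute D' (w * D * w) := by
    show D' * (w * D * w) = (w * D * w) * D'
    have h5 : w * (D * w * D' * w⁻¹) * w = w * (w⁻¹ * D' * w * D) * w := by rw [h3]
    calc D' * (w * D * w) = w * (w⁻¹ * D' * w * D) * w := by group
      _ = w * (D * w * D' * w⁻¹) * w := h5.symm
      _ = (w * D * w) * D' := by group
  -- `w D w = (w wD) D`
  have e1 : w * D * w = (w * wD) * D := by
    rw [hwD]
    calc w * D * w = w * (D * w) * 1 := by group
      _ = w * (D * w) * (D * D) := by rw [hD]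
      _ = w * (D * w * D) * D := by group
  have cw : Commute w wD := h1
  have hwDn : wD ^ n = 1 := by
    have : wD = D * w * D⁻¹ := by rw [hDi]
    rw [this, conj_pow, hw]; group
  have hDwD : D * wD * D = w := by
    rw [hwD]
    calc D * (D * w * D) * D = (D * D) * w * (D * D) := by group
      _ = w := by rw [hD, one_mul, mul_one]
  have cD : Commute (w * wD) D := by
    show (w * wD) * D = D * (w * wD)
    calc (w * wD) * D = (D * D) * (w * wD) * D := by rw [hD, one_mul]
      _ = D * (D * w * wD * D) := by group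
      _ = D * (D * w * (D * D) * wD * D) := by rw [hD, mul_one]
      _ = D * ((D * w * D) * (D * wD * D)) := by group
      _ = D * (wD * w) := by rw [hDwD]
      _ = D * (w * wD) := by rw [cw.eq]
  have hpow : (w * D * w) ^ n = D := by
    rw [e1, cD.mul_pow, cw.mul_pow, hw, hwDn, one_mul, one_mul]
    obtain ⟨k, rfl⟩ := hn
    rw [pow_succ, pow_mul, pow_two, hD, one_pow, one_mul]
  have cDD : Commute D' D := by
    have := c1.pow_right n
    rwa [hpow] at this
  have cDw : Commute D' (w * wD) := by
    have h6 : w * wD = (w * D * w) * D := by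
      rw [e1, mul_assoc, hD, mul_one]
    rw [h6]
    exact c1.mul_right cDD
  -- the involution `t`
  set t := D' * D with ht
  have htt : t * t = 1 := by
    rw [ht]
    calc D' * D * (D' * D) = D' * (D * D') * D := by group
      _ = D' * (D' * D) * D := by rw [cDD.eq]
      _ = (D' * D') * (D * D) := by group
      _ = 1 := by rw [hD, hD', one_mul]
  have hti : t⁻¹ = t := inv_eq_of_mul_eq_one_left htt
  have hDt : D' = t * D := by rw [ht, mul_assoc, hD, mul_one]
  have cDt : Commute D t := by
    show D * t = t * D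
    rw [ht]
    calc D * (D' * D) = (D * D') * D := by group
      _ = D' * D * D := by rw [cDD.eq]
  set wt := t * w * t with hwt
  set wDt := t * wD * t with hwDt
  -- `w` commutes with `(wD)^t`
  have e2 : D' * w * D' = wDt := by
    rw [hwDt, hwD]
    calc D' * w * D' = (t * D) * w * (D' * (D * D)) := by rw [hD, mul_one, ← hDt]
      _ = t * (D * w * (D' * D) * D) := by group
      _ = t * (D * w * (t * D)) := by rw [← ht]; group
      _ = t * (D * w * (D * t)) := by rw [cDt.eq]
      _ = t * (D * w * D) * t := by group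
  have c2 : Commute w wDt := by
    show w * wDt = wDt * w
    rw [← e2]; exact h2
  have e3 : wt * wDt = w * wD := by
    have h7 : D' * (w * wD) * D' = w * wD := by
      rw [cDw.eq, mul_assoc, hD', mul_one]
    have h8 : D' * (w * wD) * D' = wDt * wt := by
      rw [← e2, hwt]
      have h9 : D' * wD * D' = t * w * t := by
        calc D' * wD * D' = (t * D) * wD * (t * D) := by rw [← hDt]
          _ = (t * D) * wD * (D * t) := by rw [cDt.eq]
          _ = t * (D * wD * D) * t := by group
          _ = t * w * t := by rw [hDwD]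
      calc D' * (w * wD) * D' = D' * w * (D' * D') * wD * D' := by rw [hD']; group
        _ = (D' * w * D') * (D' * wD * D') := by group
        _ = (D' * w * D') * (t * w * t) := by rw [h9]
    have h10 : wDt * wt = wt * wDt := by
      rw [hwt, hwDt]
      calc t * wD * t * (t * w * t) = t * (wD * (t * t) * w) * t := by group
        _ = t * (wD * w) * t := by rw [htt, mul_one]
        _ = t * (w * wD) * t := by rw [cw.eq]
        _ = t * (w * (t * t) * wD) * t := by rw [htt, mul_one]
        _ = t * w * t * (t * wD * t) := by group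
    rw [← h10, ← h8, h7]
  have c3 : Commute w wt := by
    have h11 : wt = (w * wD) * wDt⁻¹ := by rw [← e3]; group
    rw [h11]
    exact ((Commute.refl w).mul_right cw).mul_right c2.inv_right
  -- conjugates under `t`
  have hcj : ∀ a b : M, Commute a b → Commute (t * a * t) (t * b * t) := by
    intro a b hab
    show t * a * t * (t * b * t) = t * b * t * (t * a * t)
    calc t * a * t * (t * b * t) = t * (a * (t * t) * b) * t := by group
      _ = t * (a * b) * t := by rw [htt, mul_one]
      _ = t * (b * a) * t := by rw [hab.eq]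
      _ = t * (b * (t * t) * a) * t := by rw [htt, mul_one]
      _ = t * b * t * (t * a * t) := by group
  have htwt : t * wt * t = w := by
    rw [hwt]
    calc t * (t * w * t) * t = (t * t) * w * (t * t) := by group
      _ = w := by rw [htt, one_mul, mul_one]
  have htwDt : t * wDt * t = wD := by
    rw [hwDt]
    calc t * (t * wD * t) * t = (t * t) * wD * (t * t) := by group
      _ = wD := by rw [htt, one_mul, mul_one]
  have c4 : Commute wt wD := by
    have := hcj _ _ c2
    rwa [htwDt] at this
  have c5 : Commute wD wDt := by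
    have h12 := c3
    -- conjugate by `D`
    show wD * wDt = wDt * wD
    have e4 : D * wt * D = wDt := by
      rw [hwt, hwDt, hwD]
      calc D * (t * w * t) * D = (D * t) * w * (t * D) := by group
        _ = (t * D) * w * (D * t) := by rw [cDt.eq]
        _ = t * (D * w * D) * t := by group
    calc wD * wDt = (D * w * D) * (D * wt * D) := by rw [e4]
      _ = D * (w * (D * D) * wt) * D := by group
      _ = D * (w * wt) * D := by rw [hD, mul_one]
      _ = D * (wt * w) * D := by rw [h12.eq]
      _ = D * (wt * (D * D) * w) * D := by rw [hD, mul_one]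
      _ = (D * wt * D) * (D * w * D) := by group
      _ = wDt * wD := by rw [e4]
  have c6 : Commute wt wDt := hcj _ _ cw
  have hwtn : wt ^ n = 1 := by
    have : wt = t * w * t⁻¹ := by rw [hti]
    rw [this, conj_pow, hw]; group
  have hwDtn : wDt ^ n = 1 := by
    have : wDt = t * wD * t⁻¹ := by rw [hti]
    rw [this, conj_pow, hwDn]; group
  -- the element `y = t r`
  set r := wt * wD⁻¹ with hr
  set rt := w * wDt⁻¹ with hrt
  have hy : w * D' * w⁻¹ * D = t * r := by
    rw [hr]
    calc w * D' * w⁻¹ * D = w * (t * D) * w⁻¹ * D := by rw [← hDt]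
      _ = (t * t) * w * t * (D * w⁻¹ * D) := by rw [htt]; group
      _ = t * (t * w * t) * (D * w⁻¹ * D) := by group
      _ = t * (wt * wD⁻¹) := by
        have : D * w⁻¹ * D = wD⁻¹ := by
          have h17 : (D * w * D)⁻¹ = D⁻¹ * w⁻¹ * D⁻¹ := by group
          rw [hwD, h17, hDi]
        rw [this, hwt]; group
  have hrr : t * r * t = rt := by
    rw [hr, hrt]
    calc t * (wt * wD⁻¹) * t = (t * wt * t) * (t⁻¹ * wD⁻¹ * t) := by group
      _ = w * (t * wD⁻¹ * t) := by rw [htwt, hti]
      _ = w * wDt⁻¹ := by
        have : t * wD⁻¹ * t = wDt⁻¹ := by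
          have h17 : (t * wD * t)⁻¹ = t⁻¹ * wD⁻¹ * t⁻¹ := by group
          rw [hwDt, h17, hti]
        rw [this]
  have crr : Commute r rt := by
    rw [hr, hrt]
    have a1 : Commute wt w := c3.symm
    have a2 : Commute wt wDt := c6
    have a3 : Commute wD w := cw.symm
    have a4 : Commute wD wDt := c5
    exact ((a1.mul_right a2.inv_right).mul_left ((a3.mul_right a4.inv_right).inv_left))
  have hrn : r ^ n = 1 := by
    rw [hr, (c4.inv_right).mul_pow, hwtn, inv_pow, hwDn, inv_one, one_mul]
  have hrtn : rt ^ n = 1 := by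
    rw [hrt, (c2.inv_right).mul_pow, hw, inv_pow, hwDtn, inv_one, one_mul]
  rw [hy] at h4
  -- `(t r)^2 = rt r`
  have hsq : (t * r) ^ 2 = rt * r := by
    rw [pow_two]
    calc t * r * (t * r) = (t * r * t) * r := by group
      _ = rt * r := by rw [hrr]
  obtain ⟨k, hk⟩ := hn
  have h13 : (rt * r) ^ k * (t * r) = 1 := by
    rw [← hsq, ← pow_mul, ← pow_succ, ← hk]; exact h4
  have h14 : t = ((rt * r) ^ k)⁻¹ * r⁻¹ := by
    have : t = ((rt * r) ^ k)⁻¹ * ((rt * r) ^ k * (t * r)) * r⁻¹ := by group
    rw [this, h13, mul_one]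
  have h15 : t ^ n = 1 := by
    have b1 : Commute ((rt * r) ^ k)⁻¹ r⁻¹ :=
      (((crr.symm.mul_left (Commute.refl r)).pow_left k).inv_left).inv_right
    rw [h14, b1.mul_pow, inv_pow, ← pow_mul, mul_comm k n, pow_mul, crr.symm.mul_pow, hrn, hrtn,
      one_mul, one_pow, inv_one, one_mul, inv_pow, hrn, inv_one]
  have h16 : t = 1 := by
    rw [hk, pow_succ, pow_mul, pow_two, htt, one_pow, one_mul] at h15
    exact h15
  rw [hDt, h16, one_mul]

end Pool.Agent.H38.FT
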