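import Pool.Agent.H38.FT.B
import Pool.Agent.H71.RS.M8
import Pool.Agent.H81.LO.LamOne

set_option autoImplicit false

/-!
Assembly: a finite simple automorphic loop of even order with `y y ≠ e` for some `y` is associative.
-/

namespace ALoop

open Equiv

variable {Q : Type*} {G : Subgroup (Perm Q)} {L : Q → Perm Q} {J : Perm Q} {e : Q}

namespace AL

/-- conjugation of an inner mapping by `z_x = D_x J` is conjugation by `D_x` -/
theorem zconj (h : AL G L J e) {x : Q} (hJx : J x = x) (hxe : x ≠ e) {b : Perm Q}
    (hb : b ∈ Inn G e) : (D L J x * J) * b * (D L J x * J) = D L J x * b * D L J x := by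
  have hz := h.EE_Inn (⟨x, hJx, hxe, rfl⟩ : D L J x * J ∈ EE L J e)
  have h1 : (D L J x * J) * J = J * (D L J x * J) := h.comJ _ hz.1 hz.2
  have h2 : b * J = J * b := h.comJ b hb.1 hb.2
  have hJJ := h.JJ1
  have h3 : J * D L J x * J = D L J x := by
    calc J * D L J x * J = J * (D L J x * J) := by group
      _ = (D L J x * J) * J := h1.symm
      _ = D L J x * (J * J) := by group
      _ = D L J x := by rw [hJJ, mul_one]
  calc (D L J x * J) * b * (D L J x * J) = D L J x * (J * b) * D L J x * J := by group
    _ = D L J x * (b * J) * D L J x * J := by rw [h2]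
    _ = D L J x * b * (J * D L J x * J) := by group
    _ = D L J x * b * D L J x := by rw [h3]

/-- THE THEOREM, in the setting `AL` -/
theorem assoc_of_two_dvd [Finite Q] (h : AL G L J e) (hcardQ : 2 ∣ Nat.card Q) : Assoc L := by
  have hl := h.lam_one hcardQ (by
    intro x w hJx hxe hw b hb hbo hzb
    by_cases hwe : w = e
    · subst hwe
      have h1 : L w = 1 := h.Le1
      rw [h1]
      simpa using hzb
    rw [h.zconj hJx hxe hb] at hzb
    have o : KX G L J e x b := ⟨⟨hJx, hxe⟩, hb, ⟨orderOf b, hbo, pow_orderOf_eq_one b⟩, hzb⟩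
    have o2 := h.stepB o ⟨hw, hwe⟩
    rw [h.zconj hJx hxe o2.mem]
    exact o2.inv)
  exact h.assoc_of_lam hcardQ (fun y hy _ => hl y hy)

end AL

end ALoop
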