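import Pool.Agent.H4.NS.Key
import Pool.Agent.H38.FT.Grp

set_option autoImplicit false

/-!
Step (0) of helper98's proof (notes 6641, 6669 of the team): `x` is an involution, `c` is an inner
mapping of odd order inverted by `D x`, `c' = (L x)⁻¹ c (L x)`, `s = c' e`, `v = c' c⁻¹`, `w = c' c`.
-/

namespace ALoop

open Equiv

variable {Q : Type*} {G : Subgroup (Perm Q)} {L : Q → Perm Q} {J : Perm Q} {e : Q}

/-- the data of step (0) -/
structure S0 (G : Subgroup (Perm Q)) (L : Q → Perm Q) (J : Perm Q) (e x : Q)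
    (c c' k : Perm Q) (s : Q) (n : ℕ) : Prop where
  hJx : J x = x
  hcG : c ∈ G
  hce : c e = e
  hn : Odd n
  hcn : c ^ n = 1
  hzc : D L J x * c * D L J x = c⁻¹
  hc' : c' = (L x)⁻¹ * c * L x
  hs : s = c' e
  hcn' : c' ^ n = 1
  hc'G : c' ∈ G
  cD : c' * D L J x = D L J x * c'
  Jc' : J * c' * J = c'⁻¹
  cc : c' * c = c * c'
  cJ : c * J = J * c
  cs : c s = s
  kG : k ∈ G
  ke : k e = e
  kx : k x = x
  ks : k s = s
  kJ : k * J = J * k
  kD : k * D L J x = D L J x * k
  kc : k * c = c * k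
  kc' : k * c' = c' * k
  Ls : L s = c' * c⁻¹ * k
  Rs : J * L (J s) * J = c' * c * k
  LJs : J * L s * J = c'⁻¹ * c⁻¹ * k

namespace AL

theorem exists_S0 (h : AL G L J e) {x : Q} (hJx : J x = x) {c : Perm Q} (hc : c ∈ Inn G e)
    {n : ℕ} (hn : Odd n) (hcn : c ^ n = 1) (hzc : D L J x * c * D L J x = c⁻¹) :
    ∃ k : Perm Q, S0 G L J e x c ((L x)⁻¹ * c * L x) k (((L x)⁻¹ * c * L x) e) n := by
  obtain ⟨cD, Jc', cc⟩ := h.key_comm hJx hc hn hcn hzc
  have hcG : c ∈ G := hc.1
  have hce : c e = e := hc.2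
  have cJ : c * J = J * c := h.comJ c hcG hce
  have hJJ := h.JJ1
  have hDD := h.D_sq x
  have hDi : (D L J x)⁻¹ = D L J x := inv_eq_of_mul_eq_one_left hDD
  have hLG := h.memL x
  set c' := (L x)⁻¹ * c * L x with hc'
  have hc'G : c' ∈ G := G.mul_mem (G.mul_mem (G.inv_mem hLG) hcG) hLG
  have hcn' : c' ^ n = 1 := by
    have h1 : c' = (L x)⁻¹ * c * ((L x)⁻¹)⁻¹ := by rw [inv_inv]
    rw [h1, conj_pow, hcn]; group
  set s := c' e with hs
  have cs : c s = s := by
    have h1 : c (c' e) = c' (c e) := by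
      show (c * c') e = (c' * c) e
      rw [cc]
    rw [hce] at h1
    exact h1
  -- `u`
  set u := c x with hu
  have hLxs : L x s = u := by
    rw [hs, hc', hu]
    show L x ((L x)⁻¹ (c (L x e))) = c x
    rw [apply_inv', h.Le]
  have hJu : J u = u := by
    have h1 : (c * J) x = (J * c) x := by rw [cJ]
    rw [Perm.mul_apply, Perm.mul_apply, hJx] at h1
    exact h1.symm
  have hLu : L u = c * L x * c⁻¹ := (h.equi c hcG hce x).symm
  have hLc : c * L s = L s * c := h.comL hcG hce cs
  -- `z`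
  have hDJ : D L J x * J = J * D L J x := h.Dx_J hJx
  have hzG : D L J x * J ∈ G := by
    have h1 := h.D_mul_mem x e
    rw [h.D_e] at h1
    exact h1
  have hze : (D L J x * J) e = e := by
    apply h.centJ hzG
    rw [mul_assoc, hJJ, mul_one, hDJ, ← mul_assoc, hJJ, one_mul]
  have hDe : D L J x e = e := by
    rw [Perm.mul_apply, h.Je] at hze
    exact hze
  have hDxx := h.D_self x
  have hzx : (D L J x * J) x = x := by rw [Perm.mul_apply, hJx, hDxx]
  have hDs : D L J x s = s := by
    have h1 : D L J x (c' e) = c' (D L J x e) := by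
      show (D L J x * c') e = (c' * D L J x) e
      rw [cD]
    rw [hDe] at h1
    exact h1
  have hzJs : (D L J x * J) (J s) = s := by rw [Perm.mul_apply, h.JJ, hDs]
  have hzs : (D L J x * J) s = J s := by
    have h1 : (D L J x * J) s = (J * D L J x) s := by rw [hDJ]
    rw [h1, Perm.mul_apply, hDs]
  have hzz : (D L J x * J) * (D L J x * J) = 1 := by
    calc D L J x * J * (D L J x * J) = D L J x * (J * D L J x) * J := by group
      _ = D L J x * (D L J x * J) * J := by rw [hDJ]
      _ = (D L J x * D L J x) * (J * J) := by group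
      _ = 1 := by rw [hDD, hJJ, one_mul]
  have hzi : (D L J x * J)⁻¹ = D L J x * J := inv_eq_of_mul_eq_one_left hzz
  have hzc' : (D L J x * J) * c = c⁻¹ * (D L J x * J) := by
    calc D L J x * J * c = D L J x * (J * c) := by group
      _ = D L J x * (c * J) := by rw [cJ]
      _ = (D L J x * c * D L J x) * (D L J x)⁻¹ * J := by group
      _ = c⁻¹ * (D L J x * J) := by rw [hzc, hDi]; group
  -- `s x = c⁻¹ x`
  have h1 : L (J s) x = u := by
    have h2 := h.aaip x s
    rw [hLxs, hJu, hJx] at h2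
    exact h2.symm
  have hLsx : L s x = c⁻¹ x := by
    have h2 := h.aut hzG hze (J s) x
    rw [hzJs, hzx, h1] at h2
    rw [← h2]
    show ((D L J x * J) * c) x = c⁻¹ x
    rw [hzc', Perm.mul_apply, hzx]
  have hLsu : L s u = x := by
    show (L s * c) x = x
    rw [← hLc, Perm.mul_apply, hLsx, apply_inv']
  -- `k`
  have kG : (L u)⁻¹ * L x * L s ∈ G :=
    G.mul_mem (G.mul_mem (G.inv_mem (h.memL u)) hLG) (h.memL s)
  have ke : ((L u)⁻¹ * L x * L s) e = e := by
    show (L u)⁻¹ (L x (L s e)) = e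
    rw [h.Le, hLxs, Perm.inv_eq_iff_eq, h.Le]
  have hflex : L x (L s x) = L u x := by
    have h2 := h.comLR x
    have h3 : ∀ q, (J * L x * J) q = L q x := by
      intro q
      have h4 := h.R_apply q x
      rw [hJx] at h4
      exact h4
    have h5 : L x ((J * L x * J) s) = (J * L x * J) (L x s) := by
      show (L x * (J * L x * J)) s = ((J * L x * J) * L x) s
      rw [h2]
    rw [h3, h3, hLxs] at h5
    exact h5
  have kx : ((L u)⁻¹ * L x * L s) x = x := by
    show (L u)⁻¹ (L x (L s x)) = x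
    rw [hflex, inv_apply']
  have ku : ((L u)⁻¹ * L x * L s) u = u := by
    show (L u)⁻¹ (L x (L s u)) = u
    rw [hLsu]
    have h2 := h.LJ x
    rw [hJx] at h2
    have h3 := h.LJ u
    rw [hJu] at h3
    rw [h2, ← h3, inv_apply']
  have hkdef : L s = c' * c⁻¹ * ((L u)⁻¹ * L x * L s) := by
    rw [hLu, hc']; group
  set k := (L u)⁻¹ * L x * L s with hk
  have ks : k s = s := by
    have h2 := h.aut kG ke x s
    rw [hLxs, ku, kx] at h2
    apply (L x).injective
    rw [← h2, hLxs]
  have kJ : k * J = J * k := h.comJ k kG ke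
  have kD : k * D L J x = D L J x * k := (h.D_cent kG x).2 kx
  have kDu : k * D L J u = D L J u * k := (h.D_cent kG u).2 ku
  have hDu : D L J u = c * D L J x * c⁻¹ := (h.D_conj hcG x).symm
  have hcc : c * c = D L J u * D L J x := by
    rw [hDu]
    have h2 : D L J x * c⁻¹ * D L J x = c := by
      have h3 : (D L J x * c * D L J x)⁻¹ = D L J x * c⁻¹ * D L J x := by
        rw [mul_inv_rev, mul_inv_rev, hDi]; group
      rw [← h3, hzc, inv_inv]
    calc c * c = c * (D L J x * c⁻¹ * D L J x) := by rw [h2]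
      _ = c * D L J x * c⁻¹ * D L J x := by group
  have kc : k * c = c * k := by
    refine (comm_of_sq hn hcn ?_).symm
    rw [hcc]
    calc D L J u * D L J x * k = D L J u * (D L J x * k) := by group
      _ = D L J u * (k * D L J x) := by rw [kD]
      _ = (D L J u * k) * D L J x := by group
      _ = (k * D L J u) * D L J x := by rw [kDu]
      _ = k * (D L J u * D L J x) := by group
  have kL : k * L x = L x * k := h.comL kG ke kx
  have kc' : k * c' = c' * k := by
    have kLi : k * (L x)⁻¹ = (L x)⁻¹ * k := by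
      calc k * (L x)⁻¹ = (L x)⁻¹ * (L x * k) * (L x)⁻¹ := by group
        _ = (L x)⁻¹ * (k * L x) * (L x)⁻¹ := by rw [kL]
        _ = (L x)⁻¹ * k := by group
    rw [hc']
    calc k * ((L x)⁻¹ * c * L x) = (k * (L x)⁻¹) * c * L x := by group
      _ = ((L x)⁻¹ * k) * c * L x := by rw [kLi]
      _ = (L x)⁻¹ * (k * c) * L x := by group
      _ = (L x)⁻¹ * (c * k) * L x := by rw [kc]
      _ = (L x)⁻¹ * c * (k * L x) := by group
      _ = (L x)⁻¹ * c * (L x * k) := by rw [kL]
      _ = (L x)⁻¹ * c * L x * k := by group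
  have hLJs : L (J s) = (D L J x * J) * L s * (D L J x * J)⁻¹ := by
    rw [h.equi _ hzG hze s, hzs]
  have Rs : J * L (J s) * J = c' * c * k := by
    rw [hLJs, hzi]
    have hDc : D L J x * c⁻¹ * D L J x = c := by
      have h3 : (D L J x * c * D L J x)⁻¹ = D L J x * c⁻¹ * D L J x := by
        rw [mul_inv_rev, mul_inv_rev, hDi]; group
      rw [← h3, hzc, inv_inv]
    calc J * (D L J x * J * L s * (D L J x * J)) * J
        = (J * D L J x) * J * L s * D L J x * (J * J) := by group
      _ = (D L J x * J) * J * L s * D L J x := by rw [hDJ, hJJ, mul_one]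
      _ = D L J x * (J * J) * L s * D L J x := by group
      _ = D L J x * L s * D L J x := by rw [hJJ, mul_one]
      _ = D L J x * (c' * c⁻¹ * k) * D L J x := by rw [← hkdef]
      _ = (D L J x * c') * c⁻¹ * (k * D L J x) := by group
      _ = (c' * D L J x) * c⁻¹ * (D L J x * k) := by rw [cD, kD]
      _ = c' * (D L J x * c⁻¹ * D L J x) * k := by group
      _ = c' * c * k := by rw [hDc]
  have hJci : J * c⁻¹ * J = c⁻¹ := by
    have h2 : J * c * J = c := by rw [← cJ, mul_assoc, hJJ, mul_one]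
    have h3 := h.Jmulinv c
    rw [h2] at h3
    exact h3.symm
  have LJs : J * L s * J = c'⁻¹ * c⁻¹ * k := by
    have h2 : J * k * J = k := by rw [← kJ, mul_assoc, hJJ, mul_one]
    rw [hkdef, h.Jmul, h.Jmul, Jc', hJci]
    rw [h2]
  exact ⟨k, ⟨hJx, hcG, hce, hn, hcn, hzc, rfl, rfl, hcn', hc'G, cD, Jc', cc, cJ, cs, kG, ke, kx, ks,
    kJ, kD, kc, kc', hkdef, Rs, LJs⟩⟩

end AL

end ALoop
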